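import Mathlib

set_option autoImplicit false

namespace Pool.Agent.H.MP_827700_an

open Set Filter Topology MeasureTheory ExpGrowth
open scoped Pointwise ENNReal

variable {G K : Type} [AddCommGroup G] [AddCommGroup K]

/-- the trajectory `C + φ C + ... + φ^(n-1) C` -/
def T (φ : G → G) (C : Set G) (n : ℕ) : Set G := ∑ i ∈ Finset.range n, φ^[i] '' C

/-- restriction to an invariant subgroup -/
def res (φ : G → G) (K : AddSubgroup G) (h : ∀ x ∈ K, φ x ∈ K) : K → K := fun x => ⟨φ x, h x x.2⟩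

theorem T_succ (φ : G →+ G) (C : Set G) (n : ℕ) : T φ C (n + 1) = φ '' T φ C n + C := by
  simp [T, Finset.sum_range_succ', image_finsetSum, image_image, -Function.iterate_succ,
    Function.iterate_succ_apply']

theorem T_zero (φ : G → G) (C : Set G) : T φ C 0 = 0 := by simp [T]

theorem T_mono (φ : G → G) {C D : Set G} (h : C ⊆ D) (n : ℕ) : T φ C n ⊆ T φ D n :=
  Finset.sum_le_sum (f := fun i => φ^[i] '' C) fun _ _ => image_mono h

theorem T_map (ι : K →+ G) (ψ : K → K) (φ : G → G) (h : Function.Semiconj ι ψ φ) (D : Set K) (n : ℕ) :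
    ι '' T ψ D n = T φ (ι '' D) n := by
  simp [T, image_finsetSum, image_image, (h.iterate_right _).eq]

theorem T_add (φ : G →+ G) (C W : Set G) (h : 0 ∈ W) (n : ℕ) : T φ C (n + 1) + W ⊆ T φ (C + W) (n + 1) := by
  rw [T_succ, T_succ, add_assoc]
  exact add_subset_add_right (image_mono (T_mono _ (subset_add_left _ h) _))

theorem T_fin (φ : G →+ G) (C F : Set G) (h0 : 0 ∈ C) (h : φ '' C + C ⊆ F + C) (n : ℕ) :
    T φ C n ⊆ T φ F n + C := by
  induction n with
  | zero => simpa [T_zero]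
  | succ n i =>
    rw [T_succ, T_succ, add_assoc]
    refine (add_subset_add_right (image_mono i)).trans ?_
    rw [image_add, add_assoc]
    exact add_subset_add_left h

variable [TopologicalSpace G] [MeasurableSpace G] [TopologicalSpace K] [MeasurableSpace K]

/-- algebraic entropy -/
noncomputable def hA (μ : Measure G) (φ : G → G) : EReal :=
  ⨆ (C : Set G) (_ : IsCompact C ∧ C ∈ 𝓝 0), expGrowthSup fun n => μ (T φ C n)

variable [IsTopologicalAddGroup G] [BorelSpace G] [T2Space G] [LocallyCompactSpace G]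
  [IsTopologicalAddGroup K] [BorelSpace K] [T2Space K] [LocallyCompactSpace K]
  (μ : Measure G) [μ.IsAddHaarMeasure] (ν : Measure K) [ν.IsAddHaarMeasure]

omit [T2Space G] [LocallyCompactSpace G] in
theorem le_card (S : Finset G) (B : Set G) : μ (S + B) ≤ S.card * μ B := by
  rw [← iUnion_add_left_image]
  exact (measure_biUnion_finset_le (μ := μ) S (· +ᵥ B)).trans (by simp)

omit [LocallyCompactSpace G] in
theorem cov (A W : Set G) (c : IsCompact W) (h : W ∈ 𝓝 0) (f : μ (A + W) ≠ ∞) :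
    ∃ S : Finset G, ↑S ⊆ A ∧ A ⊆ S + (W - W) ∧ S.card * μ W ≤ μ (A + W) := by
  classical
  have p := Measure.measure_pos_of_mem_nhds μ h
  have k : ∀ S : Finset G, ↑S ⊆ A → (S : Set G).PairwiseDisjoint (· +ᵥ W) → S.card * μ W ≤ μ (A + W) :=
    fun S a b => by
    refine le_trans (le_of_eq ?_) (measure_mono (iUnion₂_subset (s := fun x (_ : x ∈ S) => x +ᵥ W)
      fun x hx => vadd_set_subset_add (a hx)))
    simp [measure_biUnion_finset b fun x _ => c.measurableSet.const_vadd x]
  obtain ⟨N, hN⟩ := ENNReal.exists_nat_gt (ENNReal.div_ne_top f p.ne')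
  have bd : BddAbove (Finset.card '' {S : Finset G | ↑S ⊆ A ∧ (S : Set G).PairwiseDisjoint (· +ᵥ W)}) :=
    ⟨N, by
      rintro _ ⟨S, ⟨a, b⟩, rfl⟩
      exact_mod_cast ((ENNReal.le_div_iff_mul_le (.inl p.ne') (.inr f)).2 (k S a b)).trans hN.le⟩
  obtain ⟨S, ⟨a, b⟩, m⟩ := Nat.sSup_mem (Set.Nonempty.image _ ⟨∅, by simp⟩) bd
  refine ⟨S, a, fun x hx => by_contra fun n => ?_, k S a b⟩
  have w := mem_of_mem_nhds h
  have := le_csSup bd ⟨insert x S, ⟨by simpa [insert_subset_iff] using ⟨hx, a⟩, ?_⟩, rfl⟩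
  · rw [← m, Finset.card_insert_of_notMem fun e => n ⟨x, e, _, sub_mem_sub w w, by simp⟩] at this
    omega
  rw [Finset.coe_insert]
  refine b.insert fun y hy _ => disjoint_left.2 ?_
  rintro _ ⟨u, hu, rfl⟩ ⟨v, hv, e⟩
  exact n ⟨y, hy, _, sub_mem_sub hv hu, by simp only [vadd_eq_add] at e ⊢; rw [add_sub, e]; simp⟩

variable (ι : K →+ G) (hι : IsClosedEmbedding ι) (φ : G →+ G) (hφ : Continuous φ) (ψ : K →+ K)
  (hψ : Continuous ψ) (h : Function.Semiconj ι ψ φ)

omit [MeasurableSpace G] [BorelSpace G] [T2Space G] [LocallyCompactSpace G] in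
include hφ in
theorem T_cpt {C : Set G} (c : IsCompact C) (n : ℕ) : IsCompact (T φ C n) := by
  induction n with
  | zero => exact T_zero φ C ▸ isCompact_singleton
  | succ n i => exact T_succ φ C n ▸ (i.image hφ).add c

omit [T2Space K] [LocallyCompactSpace K] in
include hι hφ h in
theorem mono : hA ν ψ ≤ hA μ φ := iSup₂_le fun D ⟨d1, d2⟩ => by
  classical
  obtain ⟨W, w1, w2⟩ := exists_compact_mem_nhds (0 : G)
  have w := mem_of_mem_nhds w2
  have p := Measure.measure_pos_of_mem_nhds μ w2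
  have c := (d1.image hι.continuous).add w1
  have q := (hι.isCompact_preimage (w1.add w1.neg)).measure_lt_top (μ := ν)
  refine le_iSup₂_of_le (ι '' D + W) ⟨c, mem_of_superset w2 (subset_add_right _
    ⟨0, mem_of_mem_nhds d2, map_zero ι⟩)⟩ (expGrowthSup_le_of_eventually_le
      (ENNReal.div_ne_top q.ne p.ne') (eventually_atTop.2 ⟨1, fun n hn => ?_⟩))
  obtain ⟨n, rfl⟩ := Nat.exists_eq_add_of_le' hn
  have t := T_add φ (ι '' D) W w n
  obtain ⟨S, a, b, e⟩ := cov μ _ W w1 w2 (measure_ne_top_of_subset t (T_cpt φ hφ c _).measure_ne_top)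
  rw [← T_map ι ψ φ h] at a b
  obtain ⟨R, -, rfl⟩ := Finset.subset_set_image_iff.1 a
  rw [Finset.card_image_of_injective _ hι.injective] at e
  refine (measure_mono (t := (R : Set K) + ι ⁻¹' (W + -W)) fun x hx => ?_).trans ((le_card ν _ _).trans ?_)
  · obtain ⟨_, u, y, v, z⟩ := b ⟨x, hx, rfl⟩
    obtain ⟨r, u', rfl⟩ := Finset.mem_image.1 u
    exact ⟨r, u', x - r, by simpa [← z, ← sub_eq_add_neg], by simp⟩
  rw [mul_comm, div_eq_mul_inv, mul_assoc]
  exact mul_le_mul_right ((ENNReal.mul_le_iff_le_inv p.ne' w1.measure_ne_top).1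
    ((mul_comm _ _).trans_le (e.trans (measure_mono t)))) _

omit [T2Space G] [LocallyCompactSpace G] in
include hι hψ h in
theorem fin_le {C : Set G} (c : IsCompact C) (c0 : 0 ∈ C) (F : Set K) (f : F.Finite)
    (hF : φ '' C + C ⊆ ι '' F + C) : (expGrowthSup fun n => μ (T φ C n)) ≤ hA ν ψ := by
  classical
  obtain ⟨W, w1, w2⟩ := exists_compact_mem_nhds (0 : K)
  have w := mem_of_mem_nhds w2
  have p := Measure.measure_pos_of_mem_nhds ν w2
  have d := (f.insert 0).isCompact.add w1
  have q := (((w1.add w1.neg).image hι.continuous).add c).measure_lt_top (μ := μ)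
  refine le_iSup₂_of_le (insert 0 F + W) ⟨d, mem_of_superset w2 (subset_add_right _ (mem_insert _ _))⟩
    (expGrowthSup_le_of_eventually_le (ENNReal.div_ne_top q.ne p.ne') (eventually_atTop.2 ⟨1, fun n hn => ?_⟩))
  obtain ⟨n, rfl⟩ := Nat.exists_eq_add_of_le' hn
  have t := (add_subset_add_right (T_mono ψ (subset_insert 0 F) _)).trans (T_add ψ _ W w n)
  obtain ⟨S, -, b, e⟩ := cov ν _ W w1 w2 (measure_ne_top_of_subset t (T_cpt ψ hψ d _).measure_ne_top)
  refine (measure_mono ((T_fin φ C _ c0 hF _).trans (c := (S.image ι : Set G) + (ι '' (W + -W) + C)) ?_)).trans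
    ((le_card μ _ _).trans ?_)
  · rw [← T_map ι ψ φ h, ← add_assoc, Finset.coe_image, ← image_add, ← sub_eq_add_neg]
    exact add_subset_add_right (image_mono b)
  rw [mul_comm, div_eq_mul_inv, mul_assoc, Finset.card_image_of_injective _ hι.injective]
  exact mul_le_mul_right ((ENNReal.mul_le_iff_le_inv p.ne' w1.measure_ne_top).1
    ((mul_comm _ _).trans_le (e.trans (measure_mono t)))) _

end Pool.Agent.H.MP_827700_an
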